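import Pool.Agent.W446.SCGroup

/-!
# The rational stable center of the groups `GL_n(q)` is a polynomial algebra for `q ≥ 3`

For every finite field `F` with at least three elements, the rational stable center
`ℚ ⊗ 𝒢(q)` is the polynomial algebra on the single cycle classes `K_{(r)_f}`.
The statement has three parts.

* The numbers `structConst C D E` are the structure constants of the associated graded rings of
  the centers of the group rings `ℤ[GL_n(F)]`, for every `n`: the coefficient of `z ∈ GL_n(F)` in
  the product of the class sums `K_C(n) K_D(n)` vanishes if `ℓ(z) > ℓ(C) + ℓ(D)`, and it is the
  structure constant if `ℓ(z) = ℓ(C) + ℓ(D)`.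
* The stable center exists: there is a commutative `ℚ`-algebra with a basis `K` indexed by the
  conjugacy classes of `GL_∞(F)` and these structure constants.
* In every such algebra the elements `K_{(r)_f}` are algebraically independent and generate:
  the homomorphism from the polynomial ring in variables indexed by the pairs `(f, r)` is
  bijective.

Idea of the proof. Rescale `K_E` by the order of the centraliser of the automorphism induced by
an element of `E` on `V / ker (z - 1)`. In the new basis the structure constants count pairs
`(r, s)` of linear maps such that the block matrix `[[c + s r, s d], [r, d]]` lies in a given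
class. The group `F^×` acts on these pairs freely away from `(0, 0)`, so modulo a prime divisor
of `q - 1` the product of two basis elements is the basis element of the direct sum. Hence the
matrix expressing the monomials in the single cycle classes through the basis is invertible
modulo this prime in every degree.
-/

namespace Pool.Agent.Results.MP_02a407_al.StableCenterPolynomial

open Pool.Agent.W446.SC

theorem result (F : Type) [Field F] [Finite F] (hF : 3 ≤ Nat.card F) :
    (∀ (n : ℕ) (C D : ConjClasses (GLInf F)) (z : GLn F n),
      (lenC C + lenC D < len (toInf z) → (classSum n C * classSum n D).coeff z = 0) ∧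
      (lenC C + lenC D = len (toInf z) → (classSum n C * classSum n D).coeff z =
        structConst C D (ConjClasses.mk (toInf z)))) ∧
    (∃ (A : Type) (_ : CommRing A) (_ : Algebra ℚ A)
      (K : Module.Basis (ConjClasses (GLInf F)) ℚ A), IsStableCenter K) ∧
    ∃ c : Cyc F → ConjClasses (GLInf F),
      (∀ (s : Cyc F) (z : GLInf F), ConjClasses.mk z = c s ↔ IsCycle s z) ∧
      ∀ (A : Type) [CommRing A] [Algebra ℚ A] (K : Module.Basis (ConjClasses (GLInf F)) ℚ A),
        IsStableCenter K →
          Function.Bijective (MvPolynomial.aeval (R := ℚ) fun s : Cyc F => K (c s)) := by
  refine ⟨coeff_mul_classSum, ⟨SCAlg F, inferInstance, inferInstance, scBasis,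
    isStableCenter_scBasis⟩, fun s => cls (gX (CM s) (CM_bij s)), fun s z => isCycle_iff.symm,
    fun A _ _ K hK => main_bijective hF hK⟩

end Pool.Agent.Results.MP_02a407_al.StableCenterPolynomial
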